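import Mathlib

set_option autoImplicit false

/-!
# An overlapping IFS whose whole attractor is approximated with exponent `2`

The IFS on `ℝ` consists of the `18` similarities `x ↦ 2x/3 + i/24` and `x ↦ 1 - (2x/3 + i/24)`,
`i = 0, ..., 8`; its attractor is `X = [0, 1]` and we take `z = 0`.  Every point of `X` lies within
`Diam(X_a) ^ 2` of `φ_a(0)` for infinitely many words `a`.

The reason: the points `φ_a(0)`, `|a| = n`, with the orientation preserving maps only, contain all
the points `K / (8 * 3 ^ n)` of `[1/6, 1/3]`, `K` an integer, while the diameter of `X_a` is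
`(2/3) ^ n`.
-/

open scoped NNReal

namespace Pool.Agent.Results.MP_521650_an.WholeAttractor

/-- `φ_a = φ_{a_1} ∘ ... ∘ φ_{a_n}` for a finite word `a = a_1 ... a_n`; the identity for the empty
word. -/
def wordMap {ι E : Type*} (φ : ι → E → E) : List ι → E → E
  | [] => id
  | a :: w => φ a ∘ wordMap φ w

/-- An iterated function system: a finite family of at least two injective contractions (each one
is Lipschitz with a constant smaller than one). -/
def IsIFS {ι E : Type*} [Fintype ι] [MetricSpace E] (φ : ι → E → E) : Prop :=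
  2 ≤ Fintype.card ι ∧ ∀ i, Function.Injective (φ i) ∧ ∃ K : ℝ≥0, ContractingWith K (φ i)

/-- `X` is the attractor of the IFS: it is non-empty, compact and the union of its images. -/
def IsAttractor {ι E : Type*} [MetricSpace E] (φ : ι → E → E) (X : Set E) : Prop :=
  X.Nonempty ∧ IsCompact X ∧ X = ⋃ i, φ i '' X

/-- `W_s(z)`: the points `x` with `|x - φ_a(z)| ≤ Diam(φ_a(X)) ^ s` for infinitely many words `a`. -/
def W {ι E : Type*} [MetricSpace E] (φ : ι → E → E) (X : Set E) (z : E) (s : ℝ) : Set E :=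
  {x | {a : List ι | dist x (wordMap φ a z) ≤ Metric.diam (wordMap φ a '' X) ^ s}.Infinite}

/-- The maps `x ↦ 2x/3 + i/24` and `x ↦ 1 - (2x/3 + i/24)`, `i = 0, ..., 8`. -/
noncomputable def maps (p : Fin 9 × Bool) (x : ℝ) : ℝ :=
  if p.2 then 1 - (2 / 3 * x + (p.1 : ℕ) / 24) else 2 / 3 * x + (p.1 : ℕ) / 24

/-- `φ_a(0)` for the words in the orientation preserving maps. -/
noncomputable def val : List (Fin 9) → ℝ
  | [] => 0
  | i :: w => 2 / 3 * val w + (i : ℕ) / 24

theorem val_append (w : List (Fin 9)) (i : Fin 9) :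
    val (w ++ [i]) = val w + (2 / 3) ^ w.length * ((i : ℕ) / 24) := by
  induction w with
  | nil => simp [val]
  | cons j w ih =>
    simp only [List.cons_append, val, ih, List.length_cons, pow_succ]
    ring

theorem wordMap_pos (w : List (Fin 9)) :
    wordMap maps (w.map (fun i => (i, false))) 0 = val w := by
  induction w with
  | nil => simp [wordMap, val]
  | cons j w ih =>
    simp only [List.map_cons, wordMap, Function.comp, ih, val, maps]
    simp

theorem dist_maps (p : Fin 9 × Bool) (x y : ℝ) : dist (maps p x) (maps p y) = 2 / 3 * dist x y := by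
  rcases p with ⟨i, b⟩
  cases b
  · simp only [maps, Real.dist_eq]
    rw [show (2 / 3 : ℝ) * |x - y| = |2 / 3 * (x - y)| by
      rw [abs_mul, abs_of_pos (show (0 : ℝ) < 2 / 3 by norm_num)]]
    simp only [Bool.false_eq_true, if_false]
    congr 1
    ring
  · simp only [maps, Real.dist_eq]
    rw [show (2 / 3 : ℝ) * |x - y| = |-(2 / 3 * (x - y))| by
      rw [abs_neg, abs_mul, abs_of_pos (show (0 : ℝ) < 2 / 3 by norm_num)]]
    simp only [if_true]
    congr 1
    ring

theorem dist_wordMap (w : List (Fin 9 × Bool)) (x y : ℝ) :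
    dist (wordMap maps w x) (wordMap maps w y) = (2 / 3) ^ w.length * dist x y := by
  induction w with
  | nil => simp [wordMap]
  | cons p w ih =>
    simp only [wordMap, Function.comp, dist_maps, ih, List.length_cons, pow_succ]
    ring

theorem diam_wordMap (w : List (Fin 9 × Bool)) :
    Metric.diam (wordMap maps w '' Set.Icc (0 : ℝ) 1) = (2 / 3) ^ w.length := by
  apply le_antisymm
  · apply Metric.diam_le_of_forall_dist_le (by positivity)
    rintro _ ⟨x, hx, rfl⟩ _ ⟨y, hy, rfl⟩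
    rw [dist_wordMap]
    have h : dist x y ≤ 1 := by
      rw [Real.dist_eq, abs_le]
      exact ⟨by linarith [hx.1, hx.2, hy.1, hy.2], by linarith [hx.1, hx.2, hy.1, hy.2]⟩
    have h2 : (0 : ℝ) < (2 / 3) ^ w.length := by positivity
    nlinarith
  · have hb : Bornology.IsBounded (wordMap maps w '' Set.Icc (0 : ℝ) 1) := by
      rw [Metric.isBounded_iff]
      refine ⟨(2 / 3) ^ w.length, ?_⟩
      rintro _ ⟨x, hx, rfl⟩ _ ⟨y, hy, rfl⟩
      rw [dist_wordMap]
      have h : dist x y ≤ 1 := by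
        rw [Real.dist_eq, abs_le]
        exact ⟨by linarith [hx.1, hx.2, hy.1, hy.2], by linarith [hx.1, hx.2, hy.1, hy.2]⟩
      have h2 : (0 : ℝ) < (2 / 3) ^ w.length := by positivity
      nlinarith
    have h := Metric.dist_le_diam_of_mem hb
      (Set.mem_image_of_mem (wordMap maps w) (show (0 : ℝ) ∈ Set.Icc (0 : ℝ) 1 by simp))
      (Set.mem_image_of_mem (wordMap maps w) (show (1 : ℝ) ∈ Set.Icc (0 : ℝ) 1 by simp))
    rw [dist_wordMap] at h
    simpa using h

/-- All the points `K / (8 * 3 ^ (n + 1))` with `4 * 3 ^ n - 2 ^ (n + 2) ≤ K ≤ 8 * 3 ^ n` are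
attained. -/
theorem exists_word (n : ℕ) : ∀ K : ℕ, 4 * 3 ^ n ≤ K + 2 ^ (n + 2) → K ≤ 8 * 3 ^ n →
    ∃ w : List (Fin 9), w.length = n + 1 ∧ val w = K / (8 * 3 ^ (n + 1)) := by
  induction n with
  | zero =>
    intro K _ h2
    refine ⟨[⟨K, by omega⟩], rfl, ?_⟩
    simp only [val]
    push_cast
    ring
  | succ n ih =>
    intro K h1 h2
    -- choose the last digit
    obtain ⟨i, hi, hmod⟩ : ∃ i : ℕ, i ≤ 2 ∧ (K + 2 ^ (n + 1) * (3 - i)) % 3 = 0 := by
      have h3 : 2 ^ (n + 1) % 3 = 1 ∨ 2 ^ (n + 1) % 3 = 2 := by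
        clear ih h1 h2
        induction n with
        | zero => right; rfl
        | succ m ihm =>
          rw [pow_succ]
          omega
      have hK : K % 3 = 0 ∨ K % 3 = 1 ∨ K % 3 = 2 := by omega
      generalize 2 ^ (n + 1) = P at h3
      rcases h3 with h3 | h3 <;> rcases hK with hK | hK | hK
      · exact ⟨0, by omega, by omega⟩
      · exact ⟨1, by omega, by omega⟩
      · exact ⟨2, by omega, by omega⟩
      · exact ⟨0, by omega, by omega⟩
      · exact ⟨2, by omega, by omega⟩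
      · exact ⟨1, by omega, by omega⟩
    have hpow : 2 ^ n ≤ 3 ^ n := Nat.pow_le_pow_left (by norm_num) n
    have e1 : 3 ^ (n + 1) = 3 * 3 ^ n := by rw [pow_succ]; ring
    have e2 : 2 ^ (n + 1) = 2 * 2 ^ n := by rw [pow_succ]; ring
    have e3 : 2 ^ (n + 1 + 2) = 8 * 2 ^ n := by rw [pow_succ, pow_succ, pow_succ]; ring
    have e4 : 2 ^ (n + 2) = 4 * 2 ^ n := by rw [pow_succ, pow_succ]; ring
    rw [e1, e3] at h1
    rw [e1] at h2
    rw [e2] at hmod
    generalize hP : 2 ^ n = P at *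
    generalize hQ : 3 ^ n = Q at *
    -- `K' = (K - 2 ^ (n+1) i) / 3`
    obtain ⟨K', hK'⟩ : ∃ K' : ℕ, K = 3 * K' + 2 * P * i := by
      have h5 : 2 * P * i ≤ K := by nlinarith
      have h6 : (K - 2 * P * i) % 3 = 0 := by
        have h7 : K + 2 * P * (3 - i) = (K - 2 * P * i) + 2 * P * 3 := by
          have : 2 * P * (3 - i) + 2 * P * i = 2 * P * 3 := by
            rw [← mul_add]
            congr 1
            omega
          omega
        rw [h7] at hmod
        omega
      exact ⟨(K - 2 * P * i) / 3, by omega⟩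
    have h8 : 4 * Q ≤ K' + 2 ^ (n + 2) := by
      rw [e4]
      nlinarith
    have h9 : K' ≤ 8 * Q := by
      nlinarith [Nat.zero_le (2 * P * i)]
    obtain ⟨w, hw, hv⟩ := ih K' h8 h9
    refine ⟨w ++ [⟨i, by omega⟩], by simp [hw], ?_⟩
    rw [val_append, hv, hw, hK']
    have hQ' : (3 : ℝ) ^ n = (Q : ℝ) := by rw [← hQ]; push_cast; rfl
    have hP' : (2 : ℝ) ^ n = (P : ℝ) := by rw [← hP]; push_cast; rfl
    have hQ0 : (Q : ℝ) ≠ 0 := by rw [← hQ']; positivity
    rw [div_pow, pow_succ (2 : ℝ), pow_succ (3 : ℝ), pow_succ (3 : ℝ), pow_succ (3 : ℝ), hQ', hP']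
    push_cast
    field_simp
    ring

/-- `x` is approximated by words of every large length `n` with error at most `C / 3 ^ n`. -/
def P (x : ℝ) : Prop :=
  ∃ (C : ℝ) (N : ℕ), 0 ≤ C ∧ ∀ n, N ≤ n → ∃ w : List (Fin 9), w.length = n ∧ |x - val w| ≤ C / 3 ^ n

theorem P_mid (y : ℝ) (h1 : 1 / 6 ≤ y) (h2 : y ≤ 1 / 3) : P y := by
  refine ⟨1, 1, by norm_num, ?_⟩
  intro n hn
  obtain ⟨m, rfl⟩ : ∃ m, n = m + 1 := ⟨n - 1, by omega⟩
  have h3 : (0 : ℝ) < 3 ^ m := by positivity
  have hK := Nat.floor_le (show (0 : ℝ) ≤ 8 * 3 ^ (m + 1) * y by positivity)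
  have hK2 := Nat.lt_floor_add_one (8 * 3 ^ (m + 1) * y)
  set K := ⌊8 * 3 ^ (m + 1) * y⌋₊ with hKdef
  have h4 : 4 * 3 ^ m ≤ K := by
    rw [hKdef]
    apply Nat.le_floor
    push_cast
    rw [pow_succ]
    nlinarith
  have h5 : K ≤ 8 * 3 ^ m := by
    have : (K : ℝ) ≤ 8 * 3 ^ m := by
      refine hK.trans ?_
      rw [pow_succ]
      nlinarith
    exact_mod_cast this
  obtain ⟨w, hw, hv⟩ := exists_word m K (h4.trans (Nat.le_add_right _ _)) h5
  refine ⟨w, hw, ?_⟩
  rw [hv]
  have h6 : (0 : ℝ) < 8 * 3 ^ (m + 1) := by positivity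
  have h7 : y - K / (8 * 3 ^ (m + 1)) = (8 * 3 ^ (m + 1) * y - K) / (8 * 3 ^ (m + 1)) := by
    field_simp
  rw [h7, abs_of_nonneg (div_nonneg (by linarith) h6.le), div_le_div_iff₀ h6 (by positivity)]
  have h8 : (0 : ℝ) < 3 ^ (m + 1) := by positivity
  nlinarith

theorem P_step (y : ℝ) (i : Fin 9) (h : P y) : P (2 / 3 * y + (i : ℕ) / 24) := by
  obtain ⟨C, N, hC, h⟩ := h
  refine ⟨2 * C, N + 1, by linarith, ?_⟩
  intro n hn
  obtain ⟨m, rfl⟩ : ∃ m, n = m + 1 := ⟨n - 1, by omega⟩
  obtain ⟨w, hw, hv⟩ := h m (by omega)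
  refine ⟨i :: w, by simp [hw], ?_⟩
  simp only [val]
  have h1 : 2 / 3 * y + ((i : ℕ) : ℝ) / 24 - (2 / 3 * val w + ((i : ℕ) : ℝ) / 24) =
      2 / 3 * (y - val w) := by ring
  rw [h1, abs_mul, abs_of_pos (by norm_num : (0 : ℝ) < 2 / 3)]
  calc 2 / 3 * |y - val w| ≤ 2 / 3 * (C / 3 ^ m) := by gcongr
    _ = 2 * C / 3 ^ (m + 1) := by rw [pow_succ]; ring

theorem P_pow (x : ℝ) (k : ℕ) (h : P ((3 / 2) ^ k * x)) : P x := by
  induction k generalizing x with
  | zero => simpa using h
  | succ k ih =>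
    apply ih
    have h2 := P_step _ 0 h
    have h3 : 2 / 3 * ((3 / 2 : ℝ) ^ (k + 1) * x) + (((0 : Fin 9) : ℕ) : ℝ) / 24 =
        (3 / 2) ^ k * x := by
      rw [pow_succ]
      simp
      ring
    rwa [h3] at h2

theorem P_low (x : ℝ) (h0 : 0 < x) (h1 : x ≤ 1 / 3) : P x := by
  obtain ⟨k, hk1, hk2⟩ := exists_nat_pow_near (x := 1 / (3 * x)) (y := (3 / 2 : ℝ))
    (by rw [le_div_iff₀ (by positivity)]; linarith) (by norm_num)
  apply P_pow x k
  rw [le_div_iff₀ (by positivity)] at hk1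
  rw [div_lt_iff₀ (by positivity), pow_succ] at hk2
  apply P_mid <;> nlinarith

theorem P_half (x : ℝ) (h0 : 0 < x) (h1 : x ≤ 1 / 2) : P x := by
  rcases le_total x (1 / 3) with h2 | h2
  · exact P_low x h0 h2
  · -- the digit `i = ⌊24 x - 8 / 3⌋` or so
    obtain ⟨i, hi8, hi1, hi2⟩ : ∃ i : ℕ, i < 9 ∧ 24 * x - 16 / 3 ≤ i ∧ (i : ℝ) ≤ 24 * x - 8 / 3 := by
      refine ⟨⌈24 * x - 16 / 3⌉₊, ?_, Nat.le_ceil _, ?_⟩
      · have h3 : (⌈24 * x - 16 / 3⌉₊ : ℝ) < 24 * x - 16 / 3 + 1 :=
          Nat.ceil_lt_add_one (by linarith)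
        have h4 : (⌈24 * x - 16 / 3⌉₊ : ℝ) < 9 := by linarith
        exact_mod_cast h4
      · have h3 : (⌈24 * x - 16 / 3⌉₊ : ℝ) < 24 * x - 16 / 3 + 1 :=
          Nat.ceil_lt_add_one (by linarith)
        linarith
    have h5 : P (3 / 2 * (x - (i : ℝ) / 24)) := by
      apply P_mid <;> linarith
    have h6 := P_step _ ⟨i, hi8⟩ h5
    have h7 : 2 / 3 * (3 / 2 * (x - (i : ℝ) / 24)) + (((⟨i, hi8⟩ : Fin 9) : ℕ) : ℝ) / 24 = x := by
      simp only
      ring
    rwa [h7] at h6

theorem infinite_of_length {α : Type*} (S : Set (List α)) (N : ℕ)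
    (h : ∀ n, N ≤ n → ∃ w ∈ S, w.length = n) : S.Infinite := by
  choose! f hf using h
  apply Set.infinite_of_injective_forall_mem (f := fun n : ℕ => f (N + n))
  · intro m n hmn
    have h1 := (hf (N + m) (by omega)).2
    have h2 := (hf (N + n) (by omega)).2
    simp only at hmn
    rw [hmn, h2] at h1
    omega
  · intro n
    exact (hf (N + n) (by omega)).1

theorem eventually_small (C : ℝ) :
    ∃ N : ℕ, ∀ n, N ≤ n → C / 3 ^ n ≤ ((2 / 3 : ℝ) ^ n) ^ (2 : ℝ) := by
  obtain ⟨N, hN⟩ := pow_unbounded_of_one_lt C (show (1 : ℝ) < 4 / 3 by norm_num)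
  refine ⟨N, fun n hn => ?_⟩
  have h1 : C ≤ (4 / 3 : ℝ) ^ n :=
    hN.le.trans (pow_le_pow_right₀ (by norm_num) hn)
  have h2 : ((2 / 3 : ℝ) ^ n) ^ (2 : ℝ) = (4 / 3) ^ n / 3 ^ n := by
    rw [Real.rpow_two, ← pow_mul, mul_comm, pow_mul, ← div_pow]
    norm_num
  rw [h2]
  gcongr

theorem mem_W (x : ℝ) (h0 : 0 ≤ x) (h1 : x ≤ 1) : x ∈ W maps (Set.Icc 0 1) 0 2 := by
  show Set.Infinite _
  rcases h0.eq_or_lt with rfl | h0
  · apply infinite_of_length _ 0
    intro n _
    refine ⟨(List.replicate n (0 : Fin 9)).map (fun i => (i, false)), ?_, by simp⟩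
    rw [Set.mem_ofPred_eq, wordMap_pos, diam_wordMap]
    have : val (List.replicate n (0 : Fin 9)) = 0 := by
      clear * -
      induction n with
      | zero => rfl
      | succ n ih => rw [List.replicate_succ, val, ih]; simp
    rw [this, dist_self]
    positivity
  rcases h1.eq_or_lt with rfl | h1
  · apply infinite_of_length _ 1
    intro n hn
    obtain ⟨m, rfl⟩ : ∃ m, n = m + 1 := ⟨n - 1, by omega⟩
    refine ⟨(0, true) :: (List.replicate m (0 : Fin 9)).map (fun i => (i, false)), ?_, by simp⟩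
    rw [Set.mem_ofPred_eq, diam_wordMap]
    simp only [wordMap, Function.comp]
    rw [wordMap_pos]
    have : val (List.replicate m (0 : Fin 9)) = 0 := by
      clear hn
      induction m with
      | zero => rfl
      | succ n ih => rw [List.replicate_succ, val, ih]; simp
    rw [this]
    simp only [maps]
    simp
    positivity
  rcases le_total x (1 / 2) with h2 | h2
  · obtain ⟨C, N, hC, h⟩ := P_half x h0 h2
    obtain ⟨M, hM⟩ := eventually_small C
    apply infinite_of_length _ (max N M)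
    intro n hn
    obtain ⟨w, hw, hv⟩ := h n (le_of_max_le_left hn)
    refine ⟨w.map (fun i => (i, false)), ?_, by simp [hw]⟩
    rw [Set.mem_ofPred_eq, wordMap_pos, diam_wordMap, List.length_map, hw, Real.dist_eq]
    exact hv.trans (hM n (le_of_max_le_right hn))
  · obtain ⟨C, N, hC, h⟩ := P_half (1 - x) (by linarith) (by linarith)
    obtain ⟨M, hM⟩ := eventually_small C
    apply infinite_of_length _ (max (N + 1) M)
    intro n hn
    obtain ⟨w, hw, hv⟩ := h n (by omega)
    obtain ⟨i, w', rfl⟩ : ∃ i w', w = i :: w' := by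
      cases w with
      | nil => simp at hw; omega
      | cons i w' => exact ⟨i, w', rfl⟩
    refine ⟨(i, true) :: w'.map (fun i => (i, false)), ?_, by simpa using hw⟩
    rw [Set.mem_ofPred_eq, diam_wordMap]
    simp only [wordMap, Function.comp]
    rw [wordMap_pos]
    have h3 : maps (i, true) (val w') = 1 - val (i :: w') := by
      simp only [maps, val]
      simp
    have h4 : ((i, true) :: w'.map (fun i => (i, false))).length = n := by simpa using hw
    rw [h3, h4, Real.dist_eq]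
    have h5 : |x - (1 - val (i :: w'))| = |1 - x - val (i :: w')| := by
      rw [← abs_neg]
      congr 1
      ring
    rw [h5]
    exact hv.trans (hM n (le_of_max_le_right hn))

theorem maps_mem (p : Fin 9 × Bool) (x : ℝ) (hx : x ∈ Set.Icc (0 : ℝ) 1) :
    maps p x ∈ Set.Icc (0 : ℝ) 1 := by
  rcases p with ⟨i, b⟩
  have h1 : ((i : ℕ) : ℝ) ≤ 8 := by
    have : (i : ℕ) ≤ 8 := by omega
    exact_mod_cast this
  have h2 : (0 : ℝ) ≤ ((i : ℕ) : ℝ) := by positivity
  obtain ⟨h3, h4⟩ := hx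
  cases b <;> simp only [maps, Set.mem_Icc] <;> simp only [if_true, if_false, Bool.false_eq_true] <;>
    constructor <;> linarith

theorem wordMap_mem (w : List (Fin 9 × Bool)) (x : ℝ) (hx : x ∈ Set.Icc (0 : ℝ) 1) :
    wordMap maps w x ∈ Set.Icc (0 : ℝ) 1 := by
  induction w with
  | nil => simpa [wordMap] using hx
  | cons p w ih => exact maps_mem p _ ih

theorem W_subset : W maps (Set.Icc 0 1) 0 2 ⊆ Set.Icc 0 1 := by
  intro x hx
  by_contra hne
  obtain ⟨ε, hε, hball⟩ := Metric.isOpen_iff.1 (isClosed_Icc (a := (0 : ℝ)) (b := 1)).isOpen_compl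
    x hne
  obtain ⟨N, hN⟩ := exists_pow_lt_of_lt_one hε (show (2 / 3 : ℝ) < 1 by norm_num)
  apply hx
  apply (List.finite_length_le (Fin 9 × Bool) N).subset
  intro w hw
  rw [Set.mem_ofPred_eq, diam_wordMap] at hw
  by_contra hlen
  simp only [Set.mem_ofPred_eq, not_le] at hlen
  have h1 : ((2 / 3 : ℝ) ^ w.length) ^ (2 : ℝ) ≤ (2 / 3) ^ N := by
    rw [Real.rpow_two]
    have h2 : (2 / 3 : ℝ) ^ w.length ≤ (2 / 3) ^ N :=
      pow_le_pow_of_le_one (by norm_num) (by norm_num) hlen.le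
    have h3 : (2 / 3 : ℝ) ^ N ≤ 1 := pow_le_one₀ (by norm_num) (by norm_num)
    have h4 : (0 : ℝ) < (2 / 3) ^ w.length := by positivity
    nlinarith
  have h2 : wordMap maps w 0 ∈ Metric.ball x ε := by
    rw [Metric.mem_ball, dist_comm]
    linarith
  exact hball h2 (wordMap_mem w 0 (by simp))

/-- There are an IFS on `ℝ` (which moreover consists of similarities), a point `z` of its attractor
`X`, which has more than one point, and an exponent `s > 1` with `W_s(z) = X`. -/
theorem result : ∃ (ι : Type) (_ : Fintype ι) (φ : ι → ℝ → ℝ) (X : Set ℝ) (z s : ℝ),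
    IsIFS φ ∧ (∀ i, ∃ r t : ℝ, ∀ x, φ i x = r * x + t) ∧ IsAttractor φ X ∧ X.Nontrivial ∧ z ∈ X ∧
      1 < s ∧ W φ X z s = X := by
  refine ⟨Fin 9 × Bool, inferInstance, maps, Set.Icc 0 1, 0, 2, ⟨by simp, ?_⟩, ?_,
    ⟨⟨0, by simp⟩, isCompact_Icc, ?_⟩, ⟨0, by simp, 1, by simp, by norm_num⟩, by simp, by norm_num,
    Set.Subset.antisymm W_subset (fun x hx => mem_W x hx.1 hx.2)⟩
  · intro p
    constructor
    · intro x y hxy
      have h := dist_maps p x y
      rw [hxy, dist_self] at h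
      have : dist x y = 0 := by linarith
      exact dist_eq_zero.1 this
    · refine ⟨2 / 3, ?_, ?_⟩
      · rw [← NNReal.coe_lt_coe]
        push_cast
        norm_num
      · apply LipschitzWith.of_dist_le_mul
        intro x y
        rw [dist_maps]
        push_cast
        exact le_rfl
  · rintro ⟨i, b⟩
    cases b
    · exact ⟨2 / 3, (i : ℕ) / 24, fun x => by simp [maps]⟩
    · exact ⟨-(2 / 3), 1 - (i : ℕ) / 24, fun x => by simp [maps]; ring⟩
  · apply Set.Subset.antisymm
    · intro x hx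
      rw [Set.mem_iUnion]
      rcases le_total x (2 / 3) with h | h
      · refine ⟨(0, false), 3 / 2 * x, ⟨by linarith [hx.1], by linarith⟩, ?_⟩
        simp only [maps]
        simp
        ring
      · refine ⟨(8, false), 3 / 2 * (x - 1 / 3), ⟨by linarith, by linarith [hx.2]⟩, ?_⟩
        simp only [maps]
        simp
        norm_num
        ring
    · apply Set.iUnion_subset
      rintro p _ ⟨x, hx, rfl⟩
      exact maps_mem p x hx

end Pool.Agent.Results.MP_521650_an.WholeAttractor
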